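import Pool.Agent.Helper19.HN.St

/-!
# Closed unboundedly many elementary substructures (Tarski-Vaught)
-/

namespace Pool.Agent.Helper79.HN.TV

open Ordinal Cardinal ZFSet Order Pool.Agent.Helper73.HODC Pool.Agent.Helper73.HM
open Pool.Agent.Helper73.HE Pool.Agent.Helper73.HU Pool.Agent.Helper19.HN

/-- a code of a formula -/
def code : Fm → ℕ
  | .mem i j => 5 * Nat.pair i j
  | .eq i j => 5 * Nat.pair i j + 1
  | .neg φ => 5 * code φ + 2
  | .and φ ψ => 5 * Nat.pair (code φ) (code ψ) + 3
  | .all φ => 5 * code φ + 4

theorem code_inj : ∀ φ ψ : Fm, code φ = code ψ → φ = ψ := by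
  intro φ
  induction φ with
  | mem i j =>
    intro ψ h
    cases ψ with
    | mem i' j' =>
      have h1 : 5 * Nat.pair i j = 5 * Nat.pair i' j' := h
      obtain ⟨h2, h3⟩ := Nat.pair_eq_pair.1 (by omega : Nat.pair i j = Nat.pair i' j')
      rw [h2, h3]
    | eq i' j' => simp only [code] at h; omega
    | neg φ' => simp only [code] at h; omega
    | and φ' ψ' => simp only [code] at h; omega
    | all φ' => simp only [code] at h; omega
  | eq i j =>
    intro ψ h
    cases ψ with
    | eq i' j' =>
      have h1 : 5 * Nat.pair i j + 1 = 5 * Nat.pair i' j' + 1 := h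
      obtain ⟨h2, h3⟩ := Nat.pair_eq_pair.1 (by omega : Nat.pair i j = Nat.pair i' j')
      rw [h2, h3]
    | mem i' j' => simp only [code] at h; omega
    | neg φ' => simp only [code] at h; omega
    | and φ' ψ' => simp only [code] at h; omega
    | all φ' => simp only [code] at h; omega
  | neg φ ih =>
    intro ψ h
    cases ψ with
    | neg φ' =>
      have h1 : 5 * code φ + 2 = 5 * code φ' + 2 := h
      rw [ih φ' (by omega)]
    | mem i' j' => simp only [code] at h; omega
    | eq i' j' => simp only [code] at h; omega
    | and φ' ψ' => simp only [code] at h; omega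
    | all φ' => simp only [code] at h; omega
  | and φ ψ ih1 ih2 =>
    intro χ h
    cases χ with
    | and φ' ψ' =>
      have h1 : 5 * Nat.pair (code φ) (code ψ) + 3 = 5 * Nat.pair (code φ') (code ψ') + 3 := h
      obtain ⟨h2, h3⟩ := Nat.pair_eq_pair.1
        (by omega : Nat.pair (code φ) (code ψ) = Nat.pair (code φ') (code ψ'))
      rw [ih1 φ' h2, ih2 ψ' h3]
    | mem i' j' => simp only [code] at h; omega
    | eq i' j' => simp only [code] at h; omega
    | neg φ' => simp only [code] at h; omega
    | all φ' => simp only [code] at h; omega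
  | all φ ih =>
    intro ψ h
    cases ψ with
    | all φ' =>
      have h1 : 5 * code φ + 4 = 5 * code φ' + 4 := h
      rw [ih φ' (by omega)]
    | mem i' j' => simp only [code] at h; omega
    | eq i' j' => simp only [code] at h; omega
    | neg φ' => simp only [code] at h; omega
    | and φ' ψ' => simp only [code] at h; omega

theorem countable_fm : Countable Fm :=
  Function.Injective.countable (f := code) fun φ ψ h => code_inj φ ψ h

/-- the free variables of `φ` have indices less than `nv φ` -/
def nv : Fm → ℕ
  | .mem i j => max i j + 1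
  | .eq i j => max i j + 1
  | .neg φ => nv φ
  | .and φ ψ => max (nv φ) (nv ψ)
  | .all φ => nv φ

theorem sat_dep (M : Set ZFSet.{0}) : ∀ (φ : Fm) (v w : ℕ → ZFSet.{0}),
    (∀ n < nv φ, v n = w n) → (Sat M φ v ↔ Sat M φ w) := by
  intro φ
  induction φ with
  | mem i j =>
    intro v w h
    have h1 : v i = w i := h i (by simp only [nv]; omega)
    have h2 : v j = w j := h j (by simp only [nv]; omega)
    change v i ∈ v j ↔ w i ∈ w j
    rw [h1, h2]
  | eq i j =>
    intro v w h
    have h1 : v i = w i := h i (by simp only [nv]; omega)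
    have h2 : v j = w j := h j (by simp only [nv]; omega)
    change v i = v j ↔ w i = w j
    rw [h1, h2]
  | neg φ ih =>
    intro v w h
    exact not_congr (ih v w h)
  | and φ ψ ih1 ih2 =>
    intro v w h
    exact and_congr (ih1 v w fun n hn => h n (by simp only [nv]; omega))
      (ih2 v w fun n hn => h n (by simp only [nv]; omega))
  | all φ ih =>
    intro v w h
    have h1 : ∀ x, Sat M φ (cons x v) ↔ Sat M φ (cons x w) := by
      intro x
      apply ih
      intro n hn
      cases n with
      | zero => rfl
      | succ n => exact h n (by simp only [nv]; omega)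
    exact forall_congr' fun x => imp_congr Iff.rfl (h1 x)

theorem diagN {c : Cardinal.{0}} (hc : c.IsRegular) (hc' : ℵ₀ < c) (k : ℕ) :
    ∀ C : (ℕ → Ordinal.{0}) → Set Ordinal.{0}, (∀ a, Club (C a) c.ord) →
      Club {β | ∀ a : ℕ → Ordinal.{0}, (∀ i < k, a i < β) → (∀ i, k ≤ i → a i = 0) →
        β ∈ C a} c.ord := by
  induction k with
  | zero =>
    intro C hC
    have h1 : {β : Ordinal.{0} | ∀ a : ℕ → Ordinal.{0}, (∀ i < 0, a i < β) →
        (∀ i, 0 ≤ i → a i = 0) → β ∈ C a} = C (fun _ => 0) := by
      ext β
      constructor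
      · intro h
        exact h (fun _ => 0) (fun i hi => absurd hi (Nat.not_lt_zero i)) fun _ _ => rfl
      · intro h a _ h0
        have : a = fun _ => 0 := funext fun i => h0 i (Nat.zero_le i)
        rw [this]
        exact h
    rw [h1]
    exact hC _
  | succ k ih =>
    intro C hC
    have h1 : {β : Ordinal.{0} | ∀ a : ℕ → Ordinal.{0}, (∀ i < k + 1, a i < β) →
        (∀ i, k + 1 ≤ i → a i = 0) → β ∈ C a} =
        {β | ∀ ξ < β, β ∈ {β | ∀ a : ℕ → Ordinal.{0}, (∀ i < k, a i < β) →
          (∀ i, k ≤ i → a i = 0) → β ∈ C (Function.update a k ξ)}} := by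
      ext β
      constructor
      · intro h ξ hξ a ha ha0
        apply h
        · intro i hi
          by_cases hik : i = k
          · rw [hik, Function.update_self]
            exact hξ
          · rw [Function.update_of_ne hik]
            exact ha i (by omega)
        · intro i hi
          rw [Function.update_of_ne (by omega : i ≠ k)]
          exact ha0 i (by omega)
      · intro h a ha ha0
        have h2 := h (a k) (ha k (Nat.lt_succ_self k)) (Function.update a k 0) ?_ ?_
        · rw [Function.update_idem, Function.update_eq_self] at h2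
          exact h2
        · intro i hi
          rw [Function.update_of_ne (by omega : i ≠ k)]
          exact ha i (by omega)
        · intro i hi
          by_cases hik : i = k
          · rw [hik, Function.update_self]
          · rw [Function.update_of_ne hik]
            exact ha0 i (by omega)
    rw [h1]
    exact Club.diag hc hc' fun ξ _ => ih (fun a => C (Function.update a k ξ)) fun a => hC _

/-- **Tarski-Vaught.** -/
theorem tv : StTV := by
  intro c M m hc hc' hm hM
  have := countable_fm
  have hκ : ℵ₀ < c.ord.cof := by rw [hc.cof_ord]; exact hc'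
  have hlim : IsSuccLimit c.ord := isSuccLimit_of_cof hκ
  have hpos : 0 < c.ord := pos_of_cof hκ
  have h1 : ∀ (φ : Fm) (a : ℕ → Ordinal.{0}), ∃ b, b < c.ord ∧
      ((∃ x ∈ M, Sat M φ (cons x (fun n => m (a n)))) →
        Sat M φ (cons (m b) (fun n => m (a n)))) := by
    intro φ a
    by_cases hx : ∃ x ∈ M, Sat M φ (cons x (fun n => m (a n)))
    · obtain ⟨x, hx, hx'⟩ := hx
      obtain ⟨k, hk, rfl⟩ := hM x hx
      exact ⟨k, hk, fun _ => hx'⟩
    · exact ⟨0, hpos, fun h => absurd h hx⟩
  choose h hlt hh using h1
  refine ⟨(⋂ x : Fm × ℕ, {β | ∀ a : ℕ → Ordinal.{0}, (∀ i < x.2, a i < β) →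
    (∀ i, x.2 ≤ i → a i = 0) → β ∈ {β | h x.1 a < β}}) ∩ {g | 0 < g},
    (Club.iInter hκ fun x : Fm × ℕ => diagN hc hc' x.2 (fun a => {β | h x.1 a < β}) fun a =>
      club_Ioi hlim (hlt _ _)).inter hκ (club_Ioi hlim hpos), ?_⟩
  intro g hg hgc φ
  induction φ with
  | mem i j => intro v _; exact Iff.rfl
  | eq i j => intro v _; exact Iff.rfl
  | neg φ ih => intro v hv; exact not_congr (ih v hv)
  | and φ ψ ih1 ih2 => intro v hv; exact and_congr (ih1 v hv) (ih2 v hv)
  | all φ ih =>
    intro v hv
    have hv' : ∀ x : ZFSet.{0}, (∃ k < g, m k = x) → ∀ n, ∃ k < g, m k = cons x v n := by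
      intro x hx n
      cases n with
      | zero => exact hx
      | succ n => exact hv n
    constructor
    · intro hs x hx
      have hxM : x ∈ M := by
        obtain ⟨k, hk, rfl⟩ := hx
        exact hm k (hk.trans hgc)
      exact (ih (cons x v) (hv' x hx)).1 (hs x hxM)
    · intro hs x hx
      by_contra hcon
      have hv1 := hv
      choose k hk hkv using hv1
      have hdep : ∀ y, Sat M (.neg φ) (cons y v) ↔
          Sat M (.neg φ) (cons y (fun n => m (if n < nv φ then k n else 0))) := by
        intro y
        apply sat_dep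
        intro n hn
        cases n with
        | zero => rfl
        | succ n =>
          have h2 : n + 1 < nv φ := hn
          have h3 : n < nv φ := by omega
          change v n = m (if n < nv φ then k n else 0)
          rw [if_pos h3, hkv]
      have h2 := hh (.neg φ) (fun n => if n < nv φ then k n else 0) ⟨x, hx, (hdep x).1 hcon⟩
      have h3 : h (.neg φ) (fun n => if n < nv φ then k n else 0) < g := by
        apply Set.mem_iInter.1 hg.1 (Fm.neg φ, nv φ) (fun n => if n < nv φ then k n else 0)
        · intro i hi
          have hi' : i < nv φ := hi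
          change (if i < nv φ then k i else 0) < g
          rw [if_pos hi']
          exact hk i
        · intro i hi
          have hi' : nv φ ≤ i := hi
          change (if i < nv φ then k i else 0) = 0
          rw [if_neg (by omega)]
      have h4 := (hdep _).2 h2
      exact h4 ((ih _ (hv' _ ⟨_, h3, rfl⟩)).2 (hs _ ⟨_, h3, rfl⟩))

end Pool.Agent.Helper79.HN.TV
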